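import Mathlib

set_option autoImplicit false

namespace Pool.Agent.H67LR

/-! Completion of a partially defined permutation. -/

section Completion

variable {α : Type*}

/-- `z` is the value at `y` of the completion of the restriction of `τ` to `P`. -/
def C (τ : Equiv.Perm α) (P : Set α) (y z : α) : Prop :=
  (τ y ∈ P ∧ z = τ y) ∨
    (τ y ∉ P ∧ ∃ k : ℕ, z = (τ⁻¹ ^ k) y ∧ (∀ j ≤ k, (τ⁻¹ ^ j) y ∈ P) ∧ (τ⁻¹ ^ (k + 1)) y ∉ P)

/-- chains end. -/
def Ends (τ : Equiv.Perm α) (P : Set α) : Prop :=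
  ∀ y ∈ P, τ y ∉ P → ∃ m : ℕ, (τ⁻¹ ^ m) y ∉ P

theorem C.mem {τ : Equiv.Perm α} {P : Set α} {y z : α} (h : C τ P y z) : z ∈ P := by
  rcases h with ⟨h1, rfl⟩ | ⟨_, k, rfl, h2, _⟩
  · exact h1
  · exact h2 k le_rfl

theorem C.exists {τ : Equiv.Perm α} {P : Set α} (hE : Ends τ P) {y : α} (hy : y ∈ P) :
    ∃ z, C τ P y z := by
  by_cases h : τ y ∈ P
  · exact ⟨_, Or.inl ⟨h, rfl⟩⟩
  · classical
    obtain ⟨m, hm⟩ := hE y hy h
    have hex : ∃ m : ℕ, (τ⁻¹ ^ m) y ∉ P := ⟨m, hm⟩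
    have h0 : Nat.find hex ≠ 0 := by
      intro h0
      have := Nat.find_spec hex
      rw [h0] at this
      exact this (by simpa using hy)
    obtain ⟨k, hk⟩ := Nat.exists_eq_succ_of_ne_zero h0
    refine ⟨(τ⁻¹ ^ k) y, Or.inr ⟨h, k, rfl, fun j hj => ?_, ?_⟩⟩
    · have : j < Nat.find hex := by omega
      simpa using Nat.find_min hex this
    · have := Nat.find_spec hex
      rwa [hk] at this

theorem C.unique {τ : Equiv.Perm α} {P : Set α} {y z z' : α} (h : C τ P y z) (h' : C τ P y z') :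
    z = z' := by
  rcases h with ⟨h1, rfl⟩ | ⟨h0, k, rfl, h2, h3⟩
  · rcases h' with ⟨_, rfl⟩ | ⟨h0, _⟩
    · rfl
    · exact absurd h1 h0
  · rcases h' with ⟨h1, _⟩ | ⟨_, k', rfl, h2', h3'⟩
    · exact absurd h1 h0
    · have e : k = k' := by
        rcases lt_trichotomy k k' with hlt | heq | hgt
        · exact absurd (h2' (k + 1) hlt) h3
        · exact heq
        · exact absurd (h2 (k' + 1) hgt) h3'
      rw [e]

theorem C.symm {τ : Equiv.Perm α} {P : Set α} {y z : α} (hy : y ∈ P) (h : C τ P y z) :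
    C τ⁻¹ P z y := by
  rcases h with ⟨h1, rfl⟩ | ⟨h0, k, rfl, h2, h3⟩
  · exact Or.inl ⟨by simpa using hy, by simp⟩
  · refine Or.inr ⟨?_, k, ?_, fun j hj => ?_, ?_⟩
    · rwa [← Equiv.Perm.mul_apply, ← pow_succ']
    · rw [← Equiv.Perm.mul_apply, inv_inv]
      simp
    · have := h2 (k - j) (Nat.sub_le k j)
      have e : (τ⁻¹⁻¹ ^ j) ((τ⁻¹ ^ k) y) = (τ⁻¹ ^ (k - j)) y := by
        obtain ⟨i, rfl⟩ := Nat.exists_eq_add_of_le hj
        rw [← Equiv.Perm.mul_apply, pow_add, ← mul_assoc]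
        simp
      rwa [e]
    · have e : (τ⁻¹⁻¹ ^ (k + 1)) ((τ⁻¹ ^ k) y) = τ y := by
        rw [← Equiv.Perm.mul_apply, pow_succ', mul_assoc]
        simp
      rwa [e]

theorem C.nat {τ τ' e : Equiv.Perm α} {P : Set α} (he : ∀ y, e y ∈ P ↔ y ∈ P)
    (hc : e * τ = τ' * e) {y z : α} (h : C τ P y z) : C τ' P (e y) (e z) := by
  have h1 : ∀ y, τ' (e y) = e (τ y) := fun y => by
    have := congrArg (fun f => f y) hc
    exact this.symm
  have h2 : ∀ (j : ℕ) (y : α), (τ'⁻¹ ^ j) (e y) = e ((τ⁻¹ ^ j) y) := by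
    intro j
    have hc2 : e * τ⁻¹ = τ'⁻¹ * e := by
      rw [eq_inv_mul_iff_mul_eq, ← mul_assoc, ← hc, mul_assoc, mul_inv_cancel, mul_one]
    have hc3 : SemiconjBy e (τ⁻¹) (τ'⁻¹) := hc2
    intro y
    have := congrArg (fun f => f y) (hc3.pow_right j)
    exact this.symm
  rcases h with ⟨h3, rfl⟩ | ⟨h3, k, rfl, h4, h5⟩
  · exact Or.inl ⟨by rw [h1, he]; exact h3, by rw [h1]⟩
  · refine Or.inr ⟨by rw [h1, he]; exact h3, k, by rw [h2], fun j hj => ?_, ?_⟩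
    · rw [h2, he]; exact h4 j hj
    · rw [h2, he]; exact h5

theorem exists_comp {τ : Equiv.Perm α} {P : Set α} (h1 : Ends τ P) (h2 : Ends τ⁻¹ P) :
    ∃ x : Equiv.Perm P, ∀ y : P, C τ P y (x y) := by
  choose f hf using fun y : P => C.exists h1 y.2
  choose g hg using fun y : P => C.exists h2 y.2
  refine ⟨⟨fun y => ⟨f y, (hf y).mem⟩, fun y => ⟨g y, (hg y).mem⟩, fun y => ?_, fun y => ?_⟩,
    fun y => hf y⟩
  · apply Subtype.ext
    exact (hg ⟨f y, (hf y).mem⟩).unique ((hf y).symm y.2)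
  · apply Subtype.ext
    have := (hg y).symm y.2
    rw [inv_inv] at this
    exact (hf ⟨g y, (hg y).mem⟩).unique this

end Completion

end Pool.Agent.H67LR
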