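import Pool.Agent.H67LR.Comp

set_option autoImplicit false

namespace Pool.Agent.H67LR

open SemidirectProduct

variable {S Q : Type*} [Group Q]

/-- The automorphism of the free group on `S` induced by a permutation of `S`. -/
def permAut (S : Type*) : Equiv.Perm S →* MulAut (FreeGroup S) where
  toFun e := FreeGroup.freeGroupCongr e
  map_one' := by
    ext x
    exact FreeGroup.map.id x
  map_mul' e f := by
    ext x
    exact (FreeGroup.map.comp (f := f) (g := e) x).symm

@[simp] theorem permAut_of (e : Equiv.Perm S) (s : S) :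
    permAut S e (FreeGroup.of s) = FreeGroup.of (e s) := by
  exact FreeGroup.map.of

/-- The semidirect product of the free group on `S` with a group acting on `S`. -/
abbrev Ghat (a : Q →* Equiv.Perm S) : Type _ := FreeGroup S ⋊[(permAut S).comp a] Q

variable (a : Q →* Equiv.Perm S)

/-- The sets used. -/
structure Good (H : Subgroup (Ghat a)) (P : Set (Ghat a)) : Prop where
  left : ∀ (q : Q) (y : Ghat a), inr q * y ∈ P ↔ y ∈ P
  right : ∀ h ∈ H, ∀ y : Ghat a, y * h ∈ P ↔ y ∈ P
  fin : ∃ U : Set (Ghat a), U.Finite ∧ ∀ y ∈ P, ∃ u ∈ U, ∃ h ∈ H, y = u * h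

variable {a}

theorem ends_mulLeft {H : Subgroup (Ghat a)} {P : Set (Ghat a)} (hP : Good a H P) (g : Ghat a) :
    Ends (Equiv.mulLeft g) P := by
  intro y hy hgy
  by_contra hcon
  push Not at hcon
  obtain ⟨U, hU, hUP⟩ := hP.fin
  have key : ∀ m : ℕ, ∃ u : U, ∃ h ∈ H, g⁻¹ ^ m * y = u * h := by
    intro m
    obtain ⟨u, hu, h, hh, e⟩ := hUP _ (hcon m)
    refine ⟨⟨u, hu⟩, h, hh, ?_⟩
    rw [← e]
    simp
  choose f hf using key
  have : Finite U := hU
  obtain ⟨i, j, hij, hfij⟩ := Finite.exists_ne_map_eq_of_infinite f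
  wlog hlt : i < j generalizing i j
  · exact this j i hij.symm hfij.symm (by omega)
  obtain ⟨h1, hh1, e1⟩ := hf i
  obtain ⟨h2, hh2, e2⟩ := hf j
  obtain ⟨d, rfl⟩ := Nat.exists_eq_add_of_lt hlt
  apply hgy
  have e3 : g * y = (g⁻¹ ^ d * y) * (h2⁻¹ * h1) := by
    have e4 : g⁻¹ ^ i * y = g⁻¹ ^ (i + d + 1) * y * (h2⁻¹ * h1) := by
      rw [e1, e2, hfij]
      group
    have e5 : g⁻¹ ^ (i + d + 1) = g⁻¹ ^ i * g⁻¹ * g⁻¹ ^ d := by
      rw [show i + d + 1 = i + 1 + d by ring, pow_add, pow_succ]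
    rw [e5] at e4
    have e6 : y = g⁻¹ * g⁻¹ ^ d * y * (h2⁻¹ * h1) := by
      have := congrArg (fun z => (g⁻¹ ^ i)⁻¹ * z) e4
      simpa [mul_assoc] using this
    calc g * y = g * (g⁻¹ * g⁻¹ ^ d * y * (h2⁻¹ * h1)) := by rw [← e6]
      _ = _ := by group
  have h3 : g⁻¹ ^ d * y ∈ P := by simpa using hcon d
  have := (hP.right (h2⁻¹ * h1) (H.mul_mem (H.inv_mem hh2) hh1) (g⁻¹ ^ d * y)).2 h3
  rw [← e3] at this
  exact this

theorem ends_mulLeft_inv {H : Subgroup (Ghat a)} {P : Set (Ghat a)} (hP : Good a H P)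
    (g : Ghat a) : Ends (Equiv.mulLeft g)⁻¹ P := by
  have e : (Equiv.mulLeft g)⁻¹ = Equiv.mulLeft g⁻¹ := Equiv.ext fun _ => rfl
  rw [e]
  exact ends_mulLeft hP _

/-- The completed generators. -/
noncomputable def xs {H : Subgroup (Ghat a)} {P : Set (Ghat a)} (hP : Good a H P) (s : S) :
    Equiv.Perm P :=
  (exists_comp (ends_mulLeft hP (inl (FreeGroup.of s)))
    (ends_mulLeft_inv hP _)).choose

theorem xs_spec {H : Subgroup (Ghat a)} {P : Set (Ghat a)} (hP : Good a H P) (s : S) (y : P) :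
    C (Equiv.mulLeft (inl (FreeGroup.of s))) P y (xs hP s y) :=
  (exists_comp (ends_mulLeft hP (inl (FreeGroup.of s)))
    (ends_mulLeft_inv hP _)).choose_spec y

/-- The action of `Q`. -/
def qact {H : Subgroup (Ghat a)} {P : Set (Ghat a)} (hP : Good a H P) : Q →* Equiv.Perm P where
  toFun q := Equiv.Perm.subtypePerm (Equiv.mulLeft (inr q)) (fun y => hP.left q y)
  map_one' := Equiv.ext fun y => Subtype.ext (by
    show (inr 1 : Ghat a) * (y : Ghat a) = y
    rw [map_one, one_mul])
  map_mul' q r := Equiv.ext fun y => Subtype.ext (by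
    show (inr (q * r) : Ghat a) * (y : Ghat a) = inr q * (inr r * (y : Ghat a))
    rw [map_mul, mul_assoc])

theorem qact_apply {H : Subgroup (Ghat a)} {P : Set (Ghat a)} (hP : Good a H P) (q : Q) (y : P) :
    ((qact hP q y : P) : Ghat a) = (inr q : Ghat a) * (y : Ghat a) := rfl

theorem xs_q {H : Subgroup (Ghat a)} {P : Set (Ghat a)} (hP : Good a H P) (q : Q) (s : S) :
    xs hP (a q s) = qact hP q * xs hP s * (qact hP q)⁻¹ := by
  rw [eq_mul_inv_iff_mul_eq]
  refine Equiv.ext fun y => Subtype.ext ?_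
  have h1 := xs_spec hP s y
  have h2 := C.nat (e := Equiv.mulLeft (inr q))
    (τ' := Equiv.mulLeft (inl (FreeGroup.of (a q s)))) (fun y => hP.left q y) (by
      ext1 z
      show inr q * (inl (FreeGroup.of s) * z) = inl (FreeGroup.of (a q s)) * (inr q * z)
      rw [← mul_assoc, ← mul_assoc]
      congr 1
      have := inl_aut (φ := (permAut S).comp a) q (FreeGroup.of s)
      rw [MonoidHom.comp_apply, permAut_of] at this
      rw [this]
      simp) h1
  have h3 := xs_spec hP (a q s) (qact hP q y)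
  exact h3.unique h2

/-- The completed action. -/
noncomputable def act {H : Subgroup (Ghat a)} {P : Set (Ghat a)} (hP : Good a H P) :
    Ghat a →* Equiv.Perm P :=
  SemidirectProduct.lift (FreeGroup.lift (xs hP)) (qact hP) (by
    intro q
    apply FreeGroup.ext_hom
    intro s
    simp [xs_q hP q s])

theorem act_inl {H : Subgroup (Ghat a)} {P : Set (Ghat a)} (hP : Good a H P) (s : S) :
    act hP (inl (FreeGroup.of s)) = xs hP s := by
  simp [act]

theorem act_inr {H : Subgroup (Ghat a)} {P : Set (Ghat a)} (hP : Good a H P) (q : Q) :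
    act hP (inr q) = qact hP q := by
  simp [act]

/-- Tracing. -/
theorem trace (H : Subgroup (Ghat a)) (g : Ghat a) : ∃ U : Set (Ghat a), U.Finite ∧
    ∀ (P : Set (Ghat a)) (hP : Good a H P) (y : P), (∀ u ∈ U, u * (y : Ghat a) ∈ P) →
      ((act hP g y : P) : Ghat a) = g * y := by
  have hmul : ∀ g g' : Ghat a, (∃ U : Set (Ghat a), U.Finite ∧
    ∀ (P : Set (Ghat a)) (hP : Good a H P) (y : P), (∀ u ∈ U, u * (y : Ghat a) ∈ P) →
      ((act hP g y : P) : Ghat a) = g * y) → (∃ U : Set (Ghat a), U.Finite ∧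
    ∀ (P : Set (Ghat a)) (hP : Good a H P) (y : P), (∀ u ∈ U, u * (y : Ghat a) ∈ P) →
      ((act hP g' y : P) : Ghat a) = g' * y) → (∃ U : Set (Ghat a), U.Finite ∧
    ∀ (P : Set (Ghat a)) (hP : Good a H P) (y : P), (∀ u ∈ U, u * (y : Ghat a) ∈ P) →
      ((act hP (g * g') y : P) : Ghat a) = g * g' * y) := by
    rintro g g' ⟨U, hU, h⟩ ⟨U', hU', h'⟩
    refine ⟨U' ∪ (fun u => u * g') '' U, hU'.union (hU.image _), ?_⟩
    intro P hP y hy
    rw [map_mul, Equiv.Perm.mul_apply]
    have h1 := h' P hP y (fun u hu => hy u (Or.inl hu))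
    rw [h P hP _ (fun u hu => ?_), h1, mul_assoc]
    rw [h1, ← mul_assoc]
    exact hy _ (Or.inr ⟨u, hu, rfl⟩)
  have hinl : ∀ w : FreeGroup S, ∃ U : Set (Ghat a), U.Finite ∧
    ∀ (P : Set (Ghat a)) (hP : Good a H P) (y : P), (∀ u ∈ U, u * (y : Ghat a) ∈ P) →
      ((act hP (inl w) y : P) : Ghat a) = (inl w : Ghat a) * (y : Ghat a) := by
    intro w
    induction w using FreeGroup.induction_on with
    | C1 => exact ⟨∅, Set.finite_empty, fun P hP y _ => by simp⟩
    | of s =>
      refine ⟨{inl (FreeGroup.of s)}, Set.finite_singleton _, fun P hP y hy => ?_⟩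
      rw [act_inl]
      have h1 := xs_spec hP s y
      have h2 : C (Equiv.mulLeft (inl (FreeGroup.of s))) P y (inl (FreeGroup.of s) * (y : Ghat a)) :=
        Or.inl ⟨hy _ rfl, rfl⟩
      exact h1.unique h2
    | inv_of s _ =>
      refine ⟨{(inl (FreeGroup.of s))⁻¹}, Set.finite_singleton _, fun P hP y hy => ?_⟩
      have h0 := hy _ rfl
      rw [map_inv, map_inv, act_inl]
      have h1 : xs hP s ⟨(inl (FreeGroup.of s))⁻¹ * (y : Ghat a), h0⟩ = y := by
        apply Subtype.ext
        have h1 := xs_spec hP s ⟨(inl (FreeGroup.of s))⁻¹ * (y : Ghat a), h0⟩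
        have h2 : C (Equiv.mulLeft (inl (FreeGroup.of s))) P
            ((inl (FreeGroup.of s))⁻¹ * (y : Ghat a)) y := by
          refine Or.inl ⟨?_, ?_⟩
          · simp
          · simp
        exact h1.unique h2
      have h3 : (xs hP s)⁻¹ y = ⟨(inl (FreeGroup.of s))⁻¹ * (y : Ghat a), h0⟩ := by
        rw [Equiv.Perm.inv_eq_iff_eq, h1]
      rw [h3]
    | mul w w' hw hw' =>
      rw [map_mul]
      exact hmul _ _ hw hw'
  rw [← inl_left_mul_inr_right g]
  refine hmul _ _ (hinl _) ⟨∅, Set.finite_empty, fun P hP y _ => ?_⟩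
  rw [act_inr, qact_apply]

/-- The completed action commutes with right multiplication by elements of `H`. -/
theorem act_right {H : Subgroup (Ghat a)} {P : Set (Ghat a)} (hP : Good a H P) (g : Ghat a)
    {h : Ghat a} (hh : h ∈ H) (y y' : P) (e : (y' : Ghat a) = y * h) :
    ((act hP g y' : P) : Ghat a) = (act hP g y : P) * h := by
  let ρ : Equiv.Perm P := Equiv.Perm.subtypePerm (Equiv.mulRight h) (fun y => hP.right h hh y)
  have hρ : ∀ y : P, ((ρ y : P) : Ghat a) = y * h := fun y => rfl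
  have key : act hP g * ρ = ρ * act hP g := by
    have h1 : ∀ s, xs hP s * ρ = ρ * xs hP s := by
      intro s
      refine Equiv.ext fun y => Subtype.ext ?_
      have h1 := xs_spec hP s y
      have h2 := C.nat (e := Equiv.mulRight h) (τ' := Equiv.mulLeft (inl (FreeGroup.of s)))
        (fun y => hP.right h hh y) (by ext1 z; simp [mul_assoc]) h1
      exact (xs_spec hP s (ρ y)).unique h2
    have h2 : ∀ q, qact hP q * ρ = ρ * qact hP q := by
      intro q
      refine Equiv.ext fun y => Subtype.ext ?_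
      show (inr q : Ghat a) * ((y : Ghat a) * h) = (inr q : Ghat a) * (y : Ghat a) * h
      rw [mul_assoc]
    have h3 : ∀ w : FreeGroup S, act hP (inl w) * ρ = ρ * act hP (inl w) := by
      intro w
      induction w using FreeGroup.induction_on with
      | C1 => simp
      | of s => rw [act_inl]; exact h1 s
      | inv_of s _ =>
        rw [map_inv, map_inv, act_inl]
        have h4 : Commute (xs hP s) ρ := h1 s
        exact h4.inv_left
      | mul w w' hw hw' =>
        rw [map_mul, map_mul]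
        have h4 : Commute (act hP (inl w)) ρ := hw
        have h5 : Commute (act hP (inl w')) ρ := hw'
        exact h4.mul_left h5
    rw [← inl_left_mul_inr_right g, map_mul]
    have h4 : Commute (act hP (inl g.left)) ρ := h3 _
    have h5 : Commute (act hP (inr g.right)) ρ := by rw [act_inr]; exact h2 _
    exact h4.mul_left h5
  have e1 : y' = ρ y := Subtype.ext e
  rw [e1]
  have := congrArg (fun f => ((f y : P) : Ghat a)) key
  simpa [hρ] using this

end Pool.Agent.H67LR
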