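import Pool.Agent.H67LR.Core

set_option autoImplicit false

namespace Pool.Agent.H67LR

open SemidirectProduct

variable {S Q : Type*} [Group Q] {a : Q →* Equiv.Perm S}

/-- Virtual retracts. -/
def VRet {G : Type*} [Group G] (H : Subgroup G) : Prop :=
  ∃ K : Subgroup G, K.FiniteIndex ∧ H ≤ K ∧
    ∃ ρ : K →* G, (∀ k : K, ρ k ∈ H) ∧ ∀ h : G, ∀ hk : h ∈ K, h ∈ H → ρ ⟨h, hk⟩ = h

theorem ghat_LR [Finite Q] (H : Subgroup (Ghat a)) (hH : H.FG) : VRet H := by
  obtain ⟨T, hT⟩ := hH
  choose U hU hUt using fun g => trace (a := a) H g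
  -- the set
  let U0 : Set (Ghat a) := (⋃ t ∈ T, U t) ∪ {1}
  have hU0 : U0.Finite := (T.finite_toSet.biUnion fun t _ => hU t).union (Set.finite_singleton _)
  let P : Set (Ghat a) := {g | ∃ q : Q, ∃ u ∈ U0, ∃ h ∈ H, g = inr q * u * h}
  have hP : Good a H P := by
    refine ⟨fun q y => ⟨?_, ?_⟩, fun h hh y => ⟨?_, ?_⟩, ?_⟩
    · rintro ⟨r, u, hu, h, hh, e⟩
      refine ⟨q⁻¹ * r, u, hu, h, hh, ?_⟩
      rw [map_mul, mul_assoc, mul_assoc, ← mul_assoc (inr r), ← e, ← mul_assoc, ← map_mul]
      simp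
    · rintro ⟨r, u, hu, h, hh, rfl⟩
      exact ⟨q * r, u, hu, h, hh, by rw [map_mul]; group⟩
    · rintro ⟨r, u, hu, h', hh', e⟩
      refine ⟨r, u, hu, h' * h⁻¹, H.mul_mem hh' (H.inv_mem hh), ?_⟩
      rw [← mul_assoc, ← e]
      group
    · rintro ⟨r, u, hu, h', hh', rfl⟩
      exact ⟨r, u, hu, h' * h, H.mul_mem hh' hh, by group⟩
    · refine ⟨(fun p : Q × Ghat a => (inr p.1 : Ghat a) * p.2) '' (Set.univ ×ˢ U0),
        (Set.finite_univ.prod hU0).image _, ?_⟩
      rintro y ⟨q, u, hu, h, hh, rfl⟩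
      exact ⟨inr q * u, ⟨(q, u), ⟨trivial, hu⟩, rfl⟩, h, hh, rfl⟩
  have h1P : (1 : Ghat a) ∈ P := ⟨1, 1, Or.inr rfl, 1, H.one_mem, by simp⟩
  let o : P := ⟨1, h1P⟩
  -- the map
  let v : Ghat a → Ghat a := fun g => ((act hP g o : P) : Ghat a)
  have hHP : ∀ h ∈ H, h ∈ P := fun h hh => ⟨1, 1, Or.inr rfl, h, hh, by simp⟩
  have hv : ∀ g g', v g' ∈ H → v (g * g') = v g * v g' := by
    intro g g' hg'
    have := act_right hP g hg' o (act hP g' o) (by
      show v g' = (1 : Ghat a) * v g'
      rw [one_mul])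
    show ((act hP (g * g') o : P) : Ghat a) = _
    rw [map_mul, Equiv.Perm.mul_apply, this]
  have hv1 : v 1 = 1 := by simp [v, o]
  have hvinv : ∀ g, v g ∈ H → v g⁻¹ = (v g)⁻¹ := by
    intro g hg
    have := hv g⁻¹ g hg
    rw [inv_mul_cancel, hv1] at this
    exact eq_inv_of_mul_eq_one_left this.symm
  have hT1 : ∀ t ∈ T, v t = t := by
    intro t ht
    have := hUt t P hP o (fun u hu => by
      show u * (1 : Ghat a) ∈ P
      rw [mul_one]
      exact ⟨1, u, Or.inl (Set.mem_biUnion ht hu), 1, H.one_mem, by simp⟩)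
    show ((act hP t o : P) : Ghat a) = t
    rw [this]
    show t * (1 : Ghat a) = t
    rw [mul_one]
  have hvH : ∀ h ∈ H, v h = h := by
    intro h hh
    rw [← hT] at hh
    have hle : ∀ x ∈ Subgroup.closure (T : Set (Ghat a)), x ∈ H := by
      intro x hx
      rwa [hT] at hx
    induction hh using Subgroup.closure_induction with
    | mem x hx => exact hT1 x hx
    | one => exact hv1
    | mul x y hx hy ihx ihy =>
      rw [hv x y (by rw [ihy]; exact hle y hy), ihx, ihy]
    | inv x hx ihx => rw [hvinv x (by rw [ihx]; exact hle x hx), ihx]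
  let K : Subgroup (Ghat a) :=
    { carrier := {g | v g ∈ H}
      one_mem' := by
        show v 1 ∈ H
        rw [hv1]
        exact H.one_mem
      mul_mem' := by
        intro x y hx hy
        show v (x * y) ∈ H
        rw [hv x y hy]
        exact H.mul_mem hx hy
      inv_mem' := by
        intro x hx
        show v x⁻¹ ∈ H
        rw [hvinv x hx]
        exact H.inv_mem hx }
  refine ⟨K, ?_, ?_, ?_⟩
  · obtain ⟨W, hW, hWP⟩ := hP.fin
    choose w hw k hk e using fun g => hWP (v g) (act hP g o).2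
    have hfin : Finite (Ghat a ⧸ K) := by
      have : Finite W := hW
      refine Finite.of_injective (fun c : Ghat a ⧸ K => (⟨w c.out, hw _⟩ : W)) ?_
      intro c d hcd
      have h1 : w c.out = w d.out := congrArg Subtype.val hcd
      have h2 : v d.out = v c.out * ((k c.out)⁻¹ * k d.out) := by
        rw [e c.out, e d.out, h1]
        group
      have h3 : (k c.out)⁻¹ * k d.out ∈ H := H.mul_mem (H.inv_mem (hk _)) (hk _)
      have h4 := act_right hP (c.out)⁻¹ h3 (act hP c.out o) (act hP d.out o) h2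
      have h5 : (c.out)⁻¹ * d.out ∈ K := by
        show ((act hP ((c.out)⁻¹ * d.out) o : P) : Ghat a) ∈ H
        rw [map_mul, Equiv.Perm.mul_apply, h4, ← Equiv.Perm.mul_apply, ← map_mul,
          inv_mul_cancel, map_one]
        show (1 : Ghat a) * _ ∈ H
        rwa [one_mul]
      have h6 := QuotientGroup.eq.2 h5
      rwa [QuotientGroup.out_eq', QuotientGroup.out_eq'] at h6
    exact Subgroup.finiteIndex_of_finite_quotient
  · intro h hh
    show v h ∈ H
    rw [hvH h hh]
    exact hh
  · refine ⟨{ toFun := fun g => v g, map_one' := hv1, map_mul' := fun x y => hv x y y.2 },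
      fun k => k.2, fun h hk hh => hvH h hh⟩

/-- The property passes to groups that embed. -/
theorem VRet.of_injective {G G' : Type*} [Group G] [Group G'] (f : G →* G')
    (hf : Function.Injective f) (H : Subgroup G) (h : VRet (H.map f)) : VRet H := by
  obtain ⟨K, hK, hHK, ρ, h1, h2⟩ := h
  have := hK
  have hK2 : (K.comap f).FiniteIndex := by
    refine ⟨?_⟩
    rw [Subgroup.index_comap]
    have h3 : (K.subgroupOf f.range).FiniteIndex := inferInstance
    exact h3.index_ne_zero
  refine ⟨K.comap f, hK2, ?_, ?_⟩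
  · intro x hx
    exact hHK ⟨x, hx, rfl⟩
  · let ρ' : K.comap f →* H.map f :=
      { toFun := fun x => ⟨ρ ⟨f x, x.2⟩, h1 _⟩
        map_one' := by
          apply Subtype.ext
          have : (⟨f ((1 : K.comap f) : G), (1 : K.comap f).2⟩ : K) = 1 := Subtype.ext (by simp)
          show ρ _ = 1
          rw [this, map_one]
        map_mul' := by
          intro x y
          apply Subtype.ext
          show ρ _ = ρ _ * ρ _
          rw [← map_mul]
          congr 1
          exact Subtype.ext (by simp) }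
    refine ⟨H.subtype.comp ((H.equivMapOfInjective f hf).symm.toMonoidHom.comp ρ'), ?_, ?_⟩
    · intro k
      exact ((H.equivMapOfInjective f hf).symm _).2
    · intro h hk hh
      have e1 : ρ' ⟨h, hk⟩ = H.equivMapOfInjective f hf ⟨h, hh⟩ := by
        apply Subtype.ext
        show ρ ⟨f h, hk⟩ = f h
        exact h2 _ _ ⟨h, hh, rfl⟩
      show (((H.equivMapOfInjective f hf).symm (ρ' ⟨h, hk⟩) : H) : G) = h
      rw [e1]
      simp

end Pool.Agent.H67LR
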