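import Pool.Agent.H67LR.LR

set_option autoImplicit false

namespace Pool.Agent.H67LR

open SemidirectProduct SimpleGraph

section Labels

variable {G V : Type*} [Group G] [MulAction G V] (N : Subgroup G)

/-- Pairs of vertices modulo `N`. -/
def prel : Setoid (V × V) where
  r x y := ∃ n ∈ N, n • x.1 = y.1 ∧ n • x.2 = y.2
  iseqv := by
    refine ⟨fun x => ⟨1, N.one_mem, one_smul _ _, one_smul _ _⟩, ?_, ?_⟩
    · rintro x y ⟨n, hn, h1, h2⟩
      exact ⟨n⁻¹, N.inv_mem hn, by rw [← h1, inv_smul_smul], by rw [← h2, inv_smul_smul]⟩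
    · rintro x y z ⟨n, hn, h1, h2⟩ ⟨m, hm, h3, h4⟩
      exact ⟨m * n, N.mul_mem hm hn, by rw [mul_smul, h1, h3], by rw [mul_smul, h2, h4]⟩

/-- The set of labels. -/
abbrev Lab (V : Type*) [MulAction G V] : Type _ := Quotient (prel (V := V) N)

/-- The label of a pair. -/
def lab (u v : V) : Lab N V := Quotient.mk (prel N) (u, v)

theorem lab_eq {u v u' v' : V} :
    lab N u v = lab N u' v' ↔ ∃ n ∈ N, n • u = u' ∧ n • v = v' :=
  Quotient.eq (r := prel N)

variable [hN : N.Normal]

/-- translation of labels -/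
def labMap (g : G) : Lab N V → Lab N V :=
  Quotient.map' (s₁ := prel N) (s₂ := prel N) (fun x => (g • x.1, g • x.2)) (by
    rintro x y ⟨n, hn, h1, h2⟩
    refine ⟨g * n * g⁻¹, hN.conj_mem n hn g, ?_, ?_⟩
    · simp [mul_smul, ← h1]
    · simp [mul_smul, ← h2])

theorem labMap_lab (g : G) (u v : V) : labMap N g (lab N u v) = lab N (g • u) (g • v) := rfl

/-- The action on labels. -/
def labPerm0 : G →* Equiv.Perm (Lab N V) where
  toFun g := ⟨labMap N g, labMap N g⁻¹, by
      rintro ⟨u, v⟩
      show labMap N g⁻¹ (labMap N g (lab N u v)) = lab N u v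
      rw [labMap_lab, labMap_lab, inv_smul_smul, inv_smul_smul], by
      rintro ⟨u, v⟩
      show labMap N g (labMap N g⁻¹ (lab N u v)) = lab N u v
      rw [labMap_lab, labMap_lab, smul_inv_smul, smul_inv_smul]⟩
  map_one' := by
    refine Equiv.ext ?_
    rintro ⟨u, v⟩
    show labMap N 1 (lab N u v) = lab N u v
    rw [labMap_lab, one_smul, one_smul]
  map_mul' g h := by
    refine Equiv.ext ?_
    rintro ⟨u, v⟩
    show labMap N (g * h) (lab N u v) = labMap N g (labMap N h (lab N u v))
    rw [labMap_lab, labMap_lab, labMap_lab, mul_smul, mul_smul]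

/-- The action of the quotient group on labels. -/
def labPerm (V : Type*) [MulAction G V] : (G ⧸ N) →* Equiv.Perm (Lab N V) :=
  QuotientGroup.lift N (labPerm0 N) (by
    intro n hn
    refine Equiv.ext ?_
    rintro ⟨u, v⟩
    show labMap N n (lab N u v) = lab N u v
    rw [labMap_lab, lab_eq]
    exact ⟨n⁻¹, N.inv_mem hn, inv_smul_smul _ _, inv_smul_smul _ _⟩)

theorem labPerm_lab (g : G) (u v : V) :
    labPerm N V (g : G ⧸ N) (lab N u v) = lab N (g • u) (g • v) := rfl

variable {Γ : SimpleGraph V}

/-- The word of a walk. -/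
def word : {u v : V} → Γ.Walk u v → List (Lab N V × Bool)
  | _, _, .nil => []
  | u, _, .cons (v := v) _ p => (lab N u v, true) :: (lab N v u, false) :: word p

/-- The label of a walk. -/
def wlab {u v : V} (p : Γ.Walk u v) : FreeGroup (Lab N V) := FreeGroup.mk (word N p)

@[simp] theorem wlab_nil (u : V) : wlab N (Walk.nil : Γ.Walk u u) = 1 := rfl

/-- The label of an edge -/
def edl (u v : V) : FreeGroup (Lab N V) := FreeGroup.of (lab N u v) * (FreeGroup.of (lab N v u))⁻¹

theorem edl_inv (u v : V) : edl N u v * edl N v u = 1 := by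
  simp [edl]

theorem wlab_cons {u v w : V} (h : Γ.Adj u v) (p : Γ.Walk v w) :
    wlab N (Walk.cons h p) = edl N u v * wlab N p := by
  simp [wlab, word, edl, FreeGroup.of, FreeGroup.inv_mk, FreeGroup.invRev, FreeGroup.mul_mk]

theorem wlab_append {u v w : V} (p : Γ.Walk u v) (q : Γ.Walk v w) :
    wlab N (p.append q) = wlab N p * wlab N q := by
  induction p with
  | nil => simp
  | cons h p ih => rw [Walk.cons_append, wlab_cons, wlab_cons, ih, mul_assoc]

variable [DecidableEq V]

/-- In a tree the label of a walk depends only on its ends. -/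
theorem wlab_eq (hΓ : Γ.IsTree) {u v : V} (p q : Γ.Walk u v) : wlab N p = wlab N q := by
  have key : ∀ {u v : V} (p : Γ.Walk u v), wlab N p = wlab N p.bypass := by
    intro u v p
    induction p with
    | nil => rfl
    | @cons u w v h p ih =>
      rw [wlab_cons, ih]
      show _ = wlab N (if hs : u ∈ p.bypass.support then p.bypass.dropUntil u hs
        else Walk.cons h p.bypass)
      split_ifs with hs
      · have h1 : wlab N p.bypass = wlab N (p.bypass.takeUntil u hs) *
            wlab N (p.bypass.dropUntil u hs) := by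
          rw [← wlab_append, Walk.take_spec]
        have h2 : p.bypass.takeUntil u hs = Walk.cons h.symm Walk.nil := by
          have := hΓ.2.path_unique ⟨p.bypass.takeUntil u hs, p.bypass_isPath.takeUntil hs⟩
            ⟨Walk.cons h.symm Walk.nil, by
              simp [h.ne']⟩
          exact congrArg Subtype.val this
        rw [h1, h2, wlab_cons, wlab_nil, mul_one, ← mul_assoc, edl_inv, one_mul]
      · rw [wlab_cons]
  rw [key p, key q]
  congr 1
  exact congrArg Subtype.val (hΓ.2.path_unique ⟨p.bypass, p.bypass_isPath⟩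
    ⟨q.bypass, q.bypass_isPath⟩)

theorem permAut_edl (g : G) (u v : V) :
    permAut _ (labPerm N V (g : G ⧸ N)) (edl N u v) = edl N (g • u) (g • v) := by
  simp [edl, labPerm_lab]

/-- Equivariance of labels of walks. -/
theorem wlab_map (f : G → Γ →g Γ) (hf : ∀ g v, f g v = g • v) (g : G) {u v : V} (p : Γ.Walk u v) :
    wlab N (p.map (f g)) = permAut _ (labPerm N V (g : G ⧸ N)) (wlab N p) := by
  induction p with
  | nil => simp
  | cons h p ih =>
    rw [Walk.map_cons, wlab_cons, wlab_cons, ih, map_mul, permAut_edl, hf, hf]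

/-- Labels of nontrivial paths are nontrivial if `N` acts freely. -/
theorem word_reduced (hfree : ∀ n ∈ N, ∀ v : V, n • v = v → n = 1)
    (hinv : ∀ n ∈ N, ∀ u v : V, Γ.Adj u v → ¬ (n • u = v ∧ n • v = u)) {u v : V} (p : Γ.Walk u v)
    (hp : p.IsPath) : FreeGroup.IsReduced (word N p) := by
  induction p with
  | nil => exact FreeGroup.IsReduced.nil
  | @cons u w v h p ih =>
    have hp2 : p.IsPath := hp.of_cons
    have ih2 := ih hp2
    rw [word, FreeGroup.isReduced_cons_cons]
    refine ⟨fun e => ?_, ?_⟩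
    · exfalso
      obtain ⟨n, hn, h1, h2⟩ := (lab_eq N).1 e
      exact hinv n hn u w h ⟨h1, h2⟩
    · cases p with
      | nil => exact FreeGroup.IsReduced.singleton
      | @cons _ x _ h' p =>
        rw [word, FreeGroup.isReduced_cons_cons]
        refine ⟨fun e => ?_, ih2⟩
        exfalso
        obtain ⟨n, hn, h1, h2⟩ := (lab_eq N).1 e
        have := hfree n hn _ h1
        rw [this, one_smul] at h2
        rw [Walk.cons_isPath_iff] at hp
        apply hp.2
        rw [h2]
        simp

theorem wlab_ne_one (hfree : ∀ n ∈ N, ∀ v : V, n • v = v → n = 1)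
    (hinv : ∀ n ∈ N, ∀ u v : V, Γ.Adj u v → ¬ (n • u = v ∧ n • v = u)) {u v : V} (p : Γ.Walk u v)
    (hp : p.IsPath) (h1 : wlab N p = 1) : u = v := by
  classical
  have h2 := (word_reduced N hfree hinv p hp).reduce_eq
  have h3 : FreeGroup.reduce (word N p) = [] := by
    have := congrArg FreeGroup.toWord h1
    rwa [wlab, FreeGroup.toWord_mk, FreeGroup.toWord_one] at this
  rw [h2] at h3
  cases p with
  | nil => rfl
  | cons h p => simp [word] at h3

end Labels

/-- **Main theorem.** -/
theorem tree_LR {G V : Type*} [Group G] [MulAction G V] (Γ : SimpleGraph V) (hΓ : Γ.IsTree)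
    (hadj : ∀ (g : G) (u v : V), Γ.Adj u v → Γ.Adj (g • u) (g • v)) (F : Subgroup G)
    [F.FiniteIndex] (hfree : ∀ f ∈ F, ∀ v : V, f • v = v → f = 1)
    (hinv : ∀ f ∈ F, ∀ u v : V, Γ.Adj u v → ¬ (f • u = v ∧ f • v = u))
    (H : Subgroup G) (hH : H.FG) : VRet H := by
  classical
  let N : Subgroup G := F.normalCore
  have hN : N ≤ F := F.normalCore_le
  have : N.FiniteIndex := inferInstance
  have : Finite (G ⧸ N) := inferInstance
  obtain ⟨v0⟩ := hΓ.1.nonempty
  let f : G → Γ →g Γ := fun g => ⟨fun v => g • v, fun {u v} h => hadj g u v h⟩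
  have hf : ∀ g v, f g v = g • v := fun g v => rfl
  let W : V → V → FreeGroup (Lab N V) := fun u v => wlab N (hΓ.1.preconnected u v).some
  have hW : ∀ {u v : V} (p : Γ.Walk u v), W u v = wlab N p := fun p => wlab_eq N hΓ _ _
  have hWmul : ∀ u v w, W u v * W v w = W u w := by
    intro u v w
    rw [hW ((hΓ.1.preconnected u v).some.append (hΓ.1.preconnected v w).some), wlab_append]
  have hW1 : ∀ u, W u u = 1 := fun u => by rw [hW (Walk.nil : Γ.Walk u u), wlab_nil]
  have hWg : ∀ (g : G) u v, W (g • u) (g • v) = permAut _ (labPerm N V (g : G ⧸ N)) (W u v) := by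
    intro g u v
    have := wlab_map N f hf g (hΓ.1.preconnected u v).some
    rw [← this]
    exact hW _
  let φ : G →* Ghat (labPerm N V) :=
    { toFun := fun g => ⟨W v0 (g • v0), (g : G ⧸ N)⟩
      map_one' := by
        ext1
        · show W v0 ((1 : G) • v0) = 1
          rw [one_smul, hW1]
        · rfl
      map_mul' := by
        intro g h
        ext1
        · show W v0 ((g * h) • v0) = W v0 (g • v0) *
            permAut _ (labPerm N V (g : G ⧸ N)) (W v0 (h • v0))
          rw [← hWg, hWmul, mul_smul]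
        · rfl }
  have hφ : Function.Injective φ := by
    rw [injective_iff_map_eq_one]
    intro g hg
    have h1 : (g : G ⧸ N) = 1 := congrArg SemidirectProduct.right hg
    have h2 : W v0 (g • v0) = 1 := congrArg SemidirectProduct.left hg
    have h3 : g ∈ N := (QuotientGroup.eq_one_iff g).1 h1
    obtain ⟨p, hp⟩ : ∃ p : Γ.Walk v0 (g • v0), p.IsPath :=
      ⟨_, (hΓ.1.preconnected v0 (g • v0)).some.bypass_isPath⟩
    rw [hW p] at h2
    have h4 := wlab_ne_one N (fun n hn => hfree n (hN hn)) (fun n hn => hinv n (hN hn)) p hp h2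
    exact hfree g (hN h3) v0 h4.symm
  refine VRet.of_injective φ hφ H (ghat_LR _ ?_)
  obtain ⟨T, hT⟩ := hH
  exact ⟨T.image φ, by rw [Finset.coe_image, ← MonoidHom.map_closure, hT]⟩

end Pool.Agent.H67LR
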